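import Pool.Agent.P.MP_a28d48_al.UMain

set_option autoImplicit false

open Pool.Agent.P.MP_a28d48_al

universe u

/-- Strengthened Hanna Neumann inequality in parafree groups: for finitely generated `A`, `B`,
elements `g i` of pairwise distinct double cosets and finite presentations of the intersections
`A ∩ g i B (g i)⁻¹`, the sum of `max 0 (generators - relators - 1)` is at most
`(rank A - 1) (rank B - 1)` (subtraction of natural numbers). -/
theorem Pool.Agent.Results.MP_a28d48_al.HannaNeumann.result {P : Type u} [Group P]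
    (hres : ⨅ n, (⊤ : Subgroup P).lowerCentralSeries n = ⊥) (X : Type u)
    (hX : ∀ n, Nonempty (P ⧸ (⊤ : Subgroup P).lowerCentralSeries n ≃*
      FreeGroup X ⧸ (⊤ : Subgroup (FreeGroup X)).lowerCentralSeries n))
    (A B : Subgroup P) [Group.FG A] [Group.FG B] (m : ℕ) (g : Fin m → P)
    (hg : Function.Injective fun i => DoubleCoset.doubleCoset (g i) (A : Set P) (B : Set P))
    (n : Fin m → ℕ) (rels : ∀ i, Finset (FreeGroup (Fin (n i))))
    (hK : ∀ i, Nonempty (↥(A ⊓ B.map (MulAut.conj (g i)).toMonoidHom) ≃*
      PresentedGroup (rels i : Set (FreeGroup (Fin (n i)))))) :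
    ∑ i, (n i - (rels i).card - 1) ≤ (Group.rank A - 1) * (Group.rank B - 1) :=
  shn_parafree hres (fun n => (hX n).some) A B g hg n rels fun i => (hK i).some
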