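import Pool.Agent.P.MP_a28d48_al.BTop

set_option autoImplicit false

open Pool.Agent.P.MP_a28d48_al

universe u

/-- Every parafree group has the Howson property: if `P` is residually nilpotent and has the same
lower central sequence as a free group, then the intersection of two finitely generated subgroups
of `P` is finitely generated. -/
theorem Pool.Agent.Results.MP_a28d48_al.Howson.result {P : Type u} [Group P]
    (hres : ⨅ n, (⊤ : Subgroup P).lowerCentralSeries n = ⊥) (X : Type u)
    (hX : ∀ n, Nonempty (P ⧸ (⊤ : Subgroup P).lowerCentralSeries n ≃*
      FreeGroup X ⧸ (⊤ : Subgroup (FreeGroup X)).lowerCentralSeries n))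
    (A B : Subgroup P) (hA : A.FG) (hB : B.FG) : (A ⊓ B).FG :=
  howson_parafree hres (fun n => (hX n).some) hA hB
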